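import Mathlib

set_option autoImplicit false

namespace Pool.Agent.H.MP_c17804_co

open SimpleGraph

def Col {V : Type} (G : SimpleGraph V) (j : ℕ) : Prop :=
  ∃ c : V → Fin j, ∀ u v, G.Adj u v → c u ≠ c v

def Cr {V : Type} (G : SimpleGraph V) (j : ℕ) : Prop :=
  ¬ Col G j ∧
  (∀ a b, G.Adj a b → ∃ c : V → Fin j, ∀ u v, G.Adj u v → s(u, v) ≠ s(a, b) → c u ≠ c v) ∧
  ∀ v, ∃ w, G.Adj v w

theorem col_iff {V : Type} (G : SimpleGraph V) (j : ℕ) : Col G j ↔ G.Colorable j :=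
  ⟨fun ⟨c, h⟩ => ⟨Coloring.mk c (fun {u v} huv => h u v huv)⟩,
   fun ⟨c⟩ => ⟨c, fun _ _ h => c.valid h⟩⟩

theorem Cr.eq {V : Type} {G : SimpleGraph V} {j : ℕ} (h : Cr G j) {a b : V} {c : V → Fin j}
    (hc : ∀ u v, G.Adj u v → s(u, v) ≠ s(a, b) → c u ≠ c v) : c a = c b := by
  by_contra hne
  apply h.1
  refine ⟨c, fun u v huv => ?_⟩
  by_cases e : s(u, v) = s(a, b)
  · rcases Sym2.eq_iff.1 e with ⟨rfl, rfl⟩ | ⟨rfl, rfl⟩
    · exact hne
    · exact fun x => hne x.symm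
  · exact hc u v huv e

theorem Cr.nbrs {V : Type} {G : SimpleGraph V} {j : ℕ} (h : Cr G j) (z : V) :
    ∃ ν : Fin j → V, Function.Injective ν ∧ ∀ i, G.Adj z (ν i) := by
  classical
  obtain ⟨w, hw⟩ := h.2.2 z
  obtain ⟨c, hc⟩ := h.2.1 z w hw
  have key : ∀ i : Fin j, ∃ y, G.Adj z y ∧ c y = i := by
    intro i
    by_contra hn
    push Not at hn
    apply h.1
    refine ⟨Function.update c z i, fun u v huv => ?_⟩
    by_cases hu : u = z
    · subst hu
      rw [Function.update_self, Function.update_of_ne huv.ne']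
      exact fun e => hn v huv e.symm
    · by_cases hv : v = z
      · subst hv
        rw [Function.update_self, Function.update_of_ne hu]
        exact hn u huv.symm
      · rw [Function.update_of_ne hu, Function.update_of_ne hv]
        refine hc u v huv fun e => ?_
        rcases Sym2.eq_iff.1 e with ⟨h1, -⟩ | ⟨-, h2⟩
        · exact hu h1
        · exact hv h2
  choose ν h1 h2 using key
  exact ⟨ν, fun i i' e => by rw [← h2 i, ← h2 i', e], h1⟩

theorem Cr.other {V : Type} {G : SimpleGraph V} {j : ℕ} (h : Cr G j) (hj : 2 ≤ j) (z a b : V) :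
    ∃ y, G.Adj z y ∧ s(z, y) ≠ s(a, b) := by
  obtain ⟨ν, hi, hν⟩ := h.nbrs z
  by_contra hn
  push Not at hn
  have h0 := hn _ (hν ⟨0, by omega⟩)
  have h1 := hn _ (hν ⟨1, by omega⟩)
  have := hi (Sym2.congr_right.1 (h0.trans h1.symm))
  simp at this

def oreRel {V1 V2 : Type} (H1 : SimpleGraph V1) (a b : V1) (H2 : SimpleGraph V2) (w : V2)
    (T : Set V2) : V1 ⊕ {q : V2 // q ≠ w} → V1 ⊕ {q : V2 // q ≠ w} → Prop
  | .inl p, .inl q => H1.Adj p q ∧ s(p, q) ≠ s(a, b)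
  | .inr p, .inr q => H2.Adj p.1 q.1
  | .inl p, .inr q => H2.Adj w q.1 ∧ ((p = a ∧ q.1 ∉ T) ∨ (p = b ∧ q.1 ∈ T))
  | .inr q, .inl p => H2.Adj w q.1 ∧ ((p = a ∧ q.1 ∉ T) ∨ (p = b ∧ q.1 ∈ T))

def ore {V1 V2 : Type} (H1 : SimpleGraph V1) (a b : V1) (H2 : SimpleGraph V2) (w : V2)
    (T : Set V2) : SimpleGraph (V1 ⊕ {q : V2 // q ≠ w}) where
  Adj := oreRel H1 a b H2 w T
  symm := ⟨by
    rintro (p | p) (q | q) h
    · exact ⟨h.1.symm, by rw [Sym2.eq_swap]; exact h.2⟩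
    · exact h
    · exact h
    · exact H2.adj_symm h⟩
  loopless := ⟨by
    rintro (p | p) h
    · exact H1.irrefl h.1
    · exact H2.irrefl h⟩

theorem perm2 {j : ℕ} {x y x' y' : Fin j} (h : x ≠ y) (h' : x' ≠ y') :
    ∃ π : Equiv.Perm (Fin j), π x = x' ∧ π y = y' := by
  refine ⟨Equiv.swap (Equiv.swap x x' y) y' * Equiv.swap x x', ?_, ?_⟩
  · simp only [Equiv.Perm.mul_apply, Equiv.swap_apply_left]
    apply Equiv.swap_apply_of_ne_of_ne _ h'
    intro e
    apply h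
    apply (Equiv.swap x x').injective
    rw [Equiv.swap_apply_left]; exact e
  · simp only [Equiv.Perm.mul_apply, Equiv.swap_apply_left]

theorem ore_cr {V1 V2 : Type} {H1 : SimpleGraph V1} {a b : V1} {H2 : SimpleGraph V2} {w : V2}
    {T : Set V2} {j : ℕ} (hj : 2 ≤ j) (h1 : Cr H1 j) (h2 : Cr H2 j) (hab : H1.Adj a b)
    (hs : ∃ (c : V2 → Fin j) (β : Fin j), (∀ p q, p ≠ w → q ≠ w → H2.Adj p q → c p ≠ c q) ∧
      (∀ q, H2.Adj w q → q ∉ T → c w ≠ c q) ∧ (∀ q, H2.Adj w q → q ∈ T → β ≠ c q)) :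
    Cr (ore H1 a b H2 w T) j := by
  classical
  have glue : ∀ (c : V2 → Fin j), (∀ p q, p ≠ w → q ≠ w → H2.Adj p q → c p ≠ c q) →
      (∀ q, H2.Adj w q → c w ≠ c q) → False := by
    intro c e1 e2
    apply h2.1
    refine ⟨c, fun p q hpq => ?_⟩
    by_cases hp : p = w
    · subst hp; exact e2 q hpq
    · by_cases hq : q = w
      · subst hq; exact (e2 p hpq.symm).symm
      · exact e1 p q hp hq hpq
  have case2 : ∀ x y : V2, H2.Adj x y → ∃ c : V1 ⊕ {q : V2 // q ≠ w} → Fin j,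
      (∀ p q, (ore H1 a b H2 w T).Adj (.inl p) (.inl q) → c (.inl p) ≠ c (.inl q)) ∧
      (∀ p q, (ore H1 a b H2 w T).Adj (.inl p) (.inr q) → s(w, q.1) ≠ s(x, y) →
        c (.inl p) ≠ c (.inr q)) ∧
      (∀ p q, (ore H1 a b H2 w T).Adj (.inr p) (.inr q) → s(p.1, q.1) ≠ s(x, y) →
        c (.inr p) ≠ c (.inr q)) := by
    intro x y hxy
    obtain ⟨c1, hc1⟩ := h1.2.1 a b hab
    have e1 := h1.eq hc1
    obtain ⟨c2, hc2⟩ := h2.2.1 x y hxy
    refine ⟨Sum.elim c1 (fun q => Equiv.swap (c2 w) (c1 a) (c2 q.1)), ?_, ?_, ?_⟩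
    · intro p q h
      exact hc1 p q h.1 h.2
    · intro p q h hne e
      have hp : c1 p = c1 a := by
        rcases h.2 with ⟨rfl, -⟩ | ⟨rfl, -⟩
        · rfl
        · exact e1.symm
      apply hc2 w q.1 h.1 hne
      apply (Equiv.swap (c2 w) (c1 a)).injective
      rw [Equiv.swap_apply_left]
      exact hp.symm.trans e
    · intro p q h hne e
      exact hc2 p.1 q.1 h hne ((Equiv.swap (c2 w) (c1 a)).injective e)
  refine ⟨?_, ?_, ?_⟩
  · rintro ⟨c, hc⟩
    have e : c (.inl a) = c (.inl b) :=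
      h1.eq (c := fun p => c (.inl p)) (fun u v huv hne => hc _ _ ⟨huv, hne⟩)
    refine glue (fun q => if h : q = w then c (.inl a) else c (.inr ⟨q, h⟩)) ?_ ?_
    · intro p q hp hq hpq
      simp only [dif_neg hp, dif_neg hq]
      exact hc _ _ hpq
    · intro q hq
      simp only [dif_neg hq.ne', dif_pos]
      by_cases hT : q ∈ T
      · rw [e]; exact hc _ _ ⟨hq, Or.inr ⟨rfl, hT⟩⟩
      · exact hc _ _ ⟨hq, Or.inl ⟨rfl, hT⟩⟩
  · rintro (x | x) (y | y) hxy
    · obtain ⟨c1, hc1⟩ := h1.2.1 x y hxy.1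
      obtain ⟨c2, β, s1, s2, s3⟩ := hs
      have n2 : c2 w ≠ β := by
        intro e
        refine glue c2 s1 fun q hq => ?_
        by_cases hT : q ∈ T
        · rw [e]; exact s3 q hq hT
        · exact s2 q hq hT
      obtain ⟨π, p1, p2⟩ := perm2 n2 (hc1 a b hab (fun e => hxy.2 e.symm))
      have mid : ∀ p q, (ore H1 a b H2 w T).Adj (.inl p) (.inr q) → c1 p ≠ π (c2 q.1) := by
        intro p q h e
        rcases h.2 with ⟨rfl, hT⟩ | ⟨rfl, hT⟩
        · exact s2 q.1 h.1 hT (π.injective (p1.trans e))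
        · exact s3 q.1 h.1 hT (π.injective (p2.trans e))
      refine ⟨Sum.elim c1 (fun q => π (c2 q.1)), ?_⟩
      rintro (p | p) (q | q) h hne
      · refine hc1 p q h.1 fun e => hne ?_
        rcases Sym2.eq_iff.1 e with ⟨rfl, rfl⟩ | ⟨rfl, rfl⟩
        · rfl
        · exact Sym2.eq_swap
      · exact mid p q h
      · exact (mid q p h).symm
      · exact fun e => s1 p.1 q.1 p.2 q.2 h (π.injective e)
    · obtain ⟨c, k1, k2, k3⟩ := case2 w y.1 hxy.1
      have mid : ∀ p q, (ore H1 a b H2 w T).Adj (.inl p) (.inr q) →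
          s(Sum.inl p, Sum.inr q) ≠ s(Sum.inl x, Sum.inr y) → c (.inl p) ≠ c (.inr q) := by
        intro p q h hne
        refine k2 p q h fun e => hne ?_
        have : q = y := Subtype.ext (Sym2.congr_right.1 e)
        subst this
        rcases h.2 with ⟨rfl, hT⟩ | ⟨rfl, hT⟩ <;> rcases hxy.2 with ⟨rfl, hT'⟩ | ⟨rfl, hT'⟩
        · rfl
        · exact absurd hT' hT
        · exact absurd hT hT'
        · rfl
      refine ⟨c, ?_⟩
      rintro (p | p) (q | q) h hne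
      · exact k1 p q h
      · exact mid p q h hne
      · exact (mid q p h (by rw [Sym2.eq_swap]; exact hne)).symm
      · refine k3 p q h fun e => ?_
        rcases Sym2.eq_iff.1 e with ⟨e1, -⟩ | ⟨-, e1⟩
        · exact p.2 e1
        · exact q.2 e1
    · obtain ⟨c, k1, k2, k3⟩ := case2 w x.1 hxy.1
      have mid : ∀ p q, (ore H1 a b H2 w T).Adj (.inl p) (.inr q) →
          s(Sum.inl p, Sum.inr q) ≠ s(Sum.inr x, Sum.inl y) → c (.inl p) ≠ c (.inr q) := by
        intro p q h hne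
        refine k2 p q h fun e => hne ?_
        have : q = x := Subtype.ext (Sym2.congr_right.1 e)
        subst this
        rcases h.2 with ⟨rfl, hT⟩ | ⟨rfl, hT⟩ <;> rcases hxy.2 with ⟨rfl, hT'⟩ | ⟨rfl, hT'⟩
        · exact Sym2.eq_swap
        · exact absurd hT' hT
        · exact absurd hT hT'
        · exact Sym2.eq_swap
      refine ⟨c, ?_⟩
      rintro (p | p) (q | q) h hne
      · exact k1 p q h
      · exact mid p q h hne
      · exact (mid q p h (by rw [Sym2.eq_swap]; exact hne)).symm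
      · refine k3 p q h fun e => ?_
        rcases Sym2.eq_iff.1 e with ⟨e1, -⟩ | ⟨-, e1⟩
        · exact p.2 e1
        · exact q.2 e1
    · obtain ⟨c, k1, k2, k3⟩ := case2 x.1 y.1 hxy
      have mid : ∀ p q, (ore H1 a b H2 w T).Adj (.inl p) (.inr q) → c (.inl p) ≠ c (.inr q) := by
        intro p q h
        refine k2 p q h fun e => ?_
        rcases Sym2.eq_iff.1 e with ⟨e1, -⟩ | ⟨e1, -⟩
        · exact x.2 e1.symm
        · exact y.2 e1.symm
      refine ⟨c, ?_⟩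
      rintro (p | p) (q | q) h hne
      · exact k1 p q h
      · exact mid p q h
      · exact (mid q p h).symm
      · refine k3 p q h fun e => hne ?_
        rcases Sym2.eq_iff.1 e with ⟨e1, e2⟩ | ⟨e1, e2⟩
        · rw [Subtype.ext e1, Subtype.ext e2]
        · rw [Subtype.ext e1, Subtype.ext e2]; exact Sym2.eq_swap
  · rintro (p | q)
    · obtain ⟨y, hy, hne⟩ := h1.other hj p a b
      exact ⟨.inl y, hy, hne⟩
    · obtain ⟨y, hy⟩ := h2.2.2 q.1
      by_cases e : y = w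
      · subst e
        by_cases hT : q.1 ∈ T
        · exact ⟨.inl b, hy.symm, Or.inr ⟨rfl, hT⟩⟩
        · exact ⟨.inl a, hy.symm, Or.inl ⟨rfl, hT⟩⟩
      · exact ⟨.inr ⟨y, e⟩, hy⟩

theorem hom_onto {X V : Type} {H : SimpleGraph X} {G : SimpleGraph V} {j : ℕ} (hH : ¬ Col H j)
    (hG : Cr G j) (f : X → V) (hf : ∀ p q, H.Adj p q → G.Adj (f p) (f q)) :
    Function.Surjective f ∧ ∀ z w, G.Adj z w ↔ ∃ p q, H.Adj p q ∧ f p = z ∧ f q = w := by
  have key : ∀ z w, G.Adj z w → ∃ p q, H.Adj p q ∧ f p = z ∧ f q = w := by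
    intro z w hzw
    by_contra hn
    obtain ⟨c, hc⟩ := hG.2.1 z w hzw
    apply hH
    refine ⟨fun p => c (f p), fun p q hpq => hc _ _ (hf p q hpq) fun e => hn ?_⟩
    rcases Sym2.eq_iff.1 e with ⟨e1, e2⟩ | ⟨e1, e2⟩
    · exact ⟨p, q, hpq, e1, e2⟩
    · exact ⟨q, p, hpq.symm, e2, e1⟩
  refine ⟨fun z => ?_, fun z w => ⟨key z w, ?_⟩⟩
  · obtain ⟨w, hw⟩ := hG.2.2 z
    obtain ⟨p, -, -, e, -⟩ := key z w hw
    exact ⟨p, e⟩
  · rintro ⟨p, q, h, rfl, rfl⟩
    exact hf p q h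

theorem crit_sub {V : Type} [Finite V] (G : SimpleGraph V) {j : ℕ} (hj : 1 ≤ j) (h : ¬ Col G j) :
    ∃ (S : Set V) (H : SimpleGraph S), Cr H j ∧ ∀ p q, H.Adj p q → G.Adj p.1 q.1 := by
  classical
  obtain ⟨M, hM⟩ := exists_minimal_of_wellFoundedLT (fun M : SimpleGraph V => M ≤ G ∧ ¬ Col M j)
    ⟨G, le_rfl, h⟩
  refine ⟨M.support, M.induce M.support, ⟨?_, ?_, ?_⟩, fun p q hpq => hM.1.1 hpq⟩
  · rintro ⟨c, hc⟩
    apply hM.1.2
    refine ⟨fun v => if hv : v ∈ M.support then c ⟨v, hv⟩ else ⟨0, hj⟩, fun u v huv => ?_⟩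
    have hu : u ∈ M.support := ⟨v, huv⟩
    have hv : v ∈ M.support := ⟨u, huv.symm⟩
    simp only [dif_pos hu, dif_pos hv]
    exact hc _ _ huv
  · intro a b hab
    have : Col (M.deleteEdges {s(a.1, b.1)}) j := by
      by_contra hn
      have hle := hM.2 (y := M.deleteEdges {s(a.1, b.1)}) ⟨(M.deleteEdges_le _).trans hM.1.1, hn⟩
        (M.deleteEdges_le _)
      have := hle (show M.Adj a.1 b.1 from hab)
      simp at this
    obtain ⟨c, hc⟩ := this
    refine ⟨fun v => c v.1, fun u v huv hne => hc _ _ ?_⟩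
    rw [deleteEdges_adj]
    refine ⟨huv, fun e => hne ?_⟩
    rcases Sym2.eq_iff.1 (Set.mem_singleton_iff.1 e) with ⟨e1, e2⟩ | ⟨e1, e2⟩
    · rw [Subtype.ext e1, Subtype.ext e2]
    · rw [Subtype.ext e1, Subtype.ext e2]; exact Sym2.eq_swap
  · rintro ⟨v, w, hw⟩
    exact ⟨⟨w, v, hw.symm⟩, hw⟩

theorem top_cr {j : ℕ} (hj : 1 ≤ j) : Cr (⊤ : SimpleGraph (Fin (j + 1))) j := by
  refine ⟨?_, ?_, ?_⟩
  · rintro ⟨c, hc⟩
    have : Function.Injective c := fun u v e => by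
      by_contra hne
      exact hc u v hne e
    have := Fintype.card_le_of_injective c this
    simp at this
  · intro a b hab
    obtain ⟨i, rfl⟩ := Fin.exists_succAbove_eq (show b ≠ a from hab.ne')
    refine ⟨Fin.insertNth (α := fun _ => Fin j) a i id, fun u v huv hne => ?_⟩
    rcases Fin.eq_self_or_eq_succAbove a u with e1 | ⟨u', e1⟩ <;>
      rcases Fin.eq_self_or_eq_succAbove a v with e2 | ⟨v', e2⟩ <;> rw [e1, e2] at huv hne <;>
      rw [e1, e2]
    · exact absurd rfl huv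
    · simp only [Fin.insertNth_apply_same, Fin.insertNth_apply_succAbove, id]
      rintro rfl
      exact hne rfl
    · simp only [Fin.insertNth_apply_same, Fin.insertNth_apply_succAbove, id]
      rintro rfl
      exact hne Sym2.eq_swap
    · simp only [Fin.insertNth_apply_succAbove, id]
      rintro rfl
      exact huv rfl
  · intro v
    exact ⟨v.succAbove ⟨0, hj⟩, (Fin.succAbove_ne v _).symm⟩

end Pool.Agent.H.MP_c17804_co
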