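import Mathlib

set_option autoImplicit false

namespace Pool.Agent.H.MP_c17804_co

def Crit (k : ℕ) {V : Type} (G : SimpleGraph V) : Prop :=
  G.chromaticNumber = (k : ℕ∞) ∧ ∀ S : G.Subgraph, S ≠ ⊤ → S.coe.chromaticNumber < (k : ℕ∞)

inductive Con (k : ℕ) : (V : Type) → SimpleGraph V → Prop
  | base : Con k (Fin k) ⊤
  | iso (V W : Type) (G : SimpleGraph V) (H : SimpleGraph W) :
      Con k V G → Nonempty (G ≃g H) → Con k W H
  | join (V1 V2 W : Type) (G1 : SimpleGraph V1) (G2 : SimpleGraph V2) (H : SimpleGraph W)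
      (x1 y1 : V1) (x2 y2 : V2) (f1 : V1 → W) (f2 : V2 → W) :
      Con k V1 G1 → Con k V2 G2 → Crit k G1 → Crit k G2 →
      G1.Adj x1 y1 → G2.Adj x2 y2 →
      Function.Injective f1 → Function.Injective f2 →
      f1 x1 = f2 x2 → (∀ p q, f1 p = f2 q → p = x1 ∧ q = x2) →
      (∀ z, (∃ p, f1 p = z) ∨ (∃ q, f2 q = z)) →
      (∀ z w, H.Adj z w ↔
        ((∃ p q, G1.Adj p q ∧ s(p, q) ≠ s(x1, y1) ∧ f1 p = z ∧ f1 q = w) ∨
         (∃ p q, G2.Adj p q ∧ s(p, q) ≠ s(x2, y2) ∧ f2 p = z ∧ f2 q = w) ∨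
         (z = f1 y1 ∧ w = f2 y2) ∨ (z = f2 y2 ∧ w = f1 y1))) →
      Con k W H
  | ident (V W : Type) (G : SimpleGraph V) (H : SimpleGraph W) (u v : V) (f : V → W) :
      Con k V G → u ≠ v → ¬ G.Adj u v → Function.Surjective f → f u = f v →
      (∀ a b, f a = f b → a = b ∨ (a = u ∧ b = v) ∨ (a = v ∧ b = u)) →
      (∀ z w, H.Adj z w ↔ ∃ p q, G.Adj p q ∧ f p = z ∧ f q = w) →
      Con k W H

end Pool.Agent.H.MP_c17804_co
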