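import Mathlib
import Pool.Agent.H.MP_c17804_co.A
import Pool.Agent.H.MP_c17804_co.D

set_option autoImplicit false

namespace Pool.Agent.H.MP_c17804_co

open SimpleGraph

theorem lt_succ_iff {V : Type} (G : SimpleGraph V) (j : ℕ) :
    G.chromaticNumber < ((j + 1 : ℕ) : ℕ∞) ↔ Col G j := by
  rw [col_iff, ← chromaticNumber_le_iff_colorable]
  push_cast
  exact ENat.lt_add_one_iff (by simp)

theorem Cr.crit {V : Type} {G : SimpleGraph V} {j : ℕ} (hj : 1 ≤ j) (h : Cr G j) :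
    Crit (j + 1) G := by
  classical
  constructor
  · apply le_antisymm
    · rw [chromaticNumber_le_iff_colorable, ← col_iff]
      have hne : Nonempty V := by
        by_contra hn
        exact h.1 ⟨fun v => (hn ⟨v⟩).elim, fun v => (hn ⟨v⟩).elim⟩
      obtain ⟨z⟩ := hne
      obtain ⟨w, hw⟩ := h.2.2 z
      obtain ⟨c, hc⟩ := h.2.1 z w hw
      refine ⟨fun v => if v = z then Fin.last j else (c v).castSucc, fun u v huv => ?_⟩
      by_cases hu : u = z
      · subst hu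
        simp only [if_true, if_neg huv.ne']
        exact (Fin.castSucc_lt_last _).ne'
      · by_cases hv : v = z
        · subst hv
          simp only [if_true, if_neg hu]
          exact (Fin.castSucc_lt_last _).ne
        · simp only [if_neg hu, if_neg hv]
          intro e
          refine hc u v huv (fun e => ?_) (Fin.castSucc_injective _ e)
          rcases Sym2.eq_iff.1 e with ⟨h1, -⟩ | ⟨-, h2⟩
          · exact hu h1
          · exact hv h2
    · by_contra hn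
      exact h.1 ((lt_succ_iff G j).1 (not_le.1 hn))
  · intro S hS
    rw [lt_succ_iff]
    have : ∃ a b, G.Adj a b ∧ ¬ S.Adj a b := by
      by_contra hn
      push Not at hn
      apply hS
      ext a b
      · obtain ⟨w, hw⟩ := h.2.2 a
        simpa using S.edge_vert (hn a w hw)
      · exact ⟨fun x => S.adj_sub x, fun x => hn a b x⟩
    obtain ⟨a, b, hab, hn⟩ := this
    obtain ⟨c, hc⟩ := h.2.1 a b hab
    refine ⟨fun v => c v.1, fun u v huv => hc _ _ (S.adj_sub huv) fun e => hn ?_⟩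
    rcases Sym2.eq_iff.1 e with ⟨e1, e2⟩ | ⟨e1, e2⟩
    · rw [← e1, ← e2]; exact huv
    · rw [← e1, ← e2]; exact S.symm.1 _ _ huv

theorem Crit.del {V : Type} {G : SimpleGraph V} {j : ℕ} (h : Crit (j + 1) G) (z : V) :
    ∃ c : {v : V // v ≠ z} → Fin j, ∀ u v : {v : V // v ≠ z}, G.Adj u.1 v.1 → c u ≠ c v := by
  have hS : (⊤ : G.Subgraph).induce {v | v ≠ z} ≠ ⊤ := by
    intro e
    have : z ∈ ((⊤ : G.Subgraph).induce {v | v ≠ z}).verts := by rw [e]; trivial
    exact this rfl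
  obtain ⟨c, hc⟩ := (lt_succ_iff _ j).1 (h.2 _ hS)
  exact ⟨c, fun u v huv => hc u v ⟨u.2, v.2, huv⟩⟩

theorem Crit.cr {V : Type} {G : SimpleGraph V} {j : ℕ} (hj : 1 ≤ j) (h : Crit (j + 1) G) :
    Cr G j := by
  classical
  have h0 : ¬ Col G j := by
    rw [← lt_succ_iff, h.1]
    exact lt_irrefl _
  refine ⟨h0, ?_, ?_⟩
  · intro a b hab
    have hS : (⊤ : G.Subgraph).deleteEdges {s(a, b)} ≠ ⊤ := by
      intro e
      have : ((⊤ : G.Subgraph).deleteEdges {s(a, b)}).Adj a b := by rw [e]; exact hab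
      simp at this
    obtain ⟨c, hc⟩ := (lt_succ_iff _ j).1 (h.2 _ hS)
    refine ⟨fun v => c ⟨v, trivial⟩, fun u v huv hne => hc _ _ ?_⟩
    simp only [Subgraph.coe_adj, Subgraph.deleteEdges_adj]
    exact ⟨huv, hne⟩
  · intro z
    by_contra hn
    push Not at hn
    obtain ⟨c, hc⟩ := h.del z
    apply h0
    refine ⟨fun v => if hv : v = z then ⟨0, hj⟩ else c ⟨v, hv⟩, fun u v huv => ?_⟩
    have hu : u ≠ z := fun e => hn v (e ▸ huv)
    have hv : v ≠ z := fun e => hn u (e ▸ huv.symm)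
    simp only [dif_neg hu, dif_neg hv]
    exact hc _ _ huv

theorem con_quot (k : ℕ) : ∀ (n : ℕ) (X V : Type) [Finite X] (H : SimpleGraph X) (G : SimpleGraph V)
    (f : X → V), Nat.card X = n → Con k X H → Function.Surjective f →
    (∀ z w, G.Adj z w ↔ ∃ p q, H.Adj p q ∧ f p = z ∧ f q = w) → Con k V G := by
  classical
  intro n
  induction n using Nat.strong_induction_on with
  | _ n ih =>
  intro X V _ H G f hn hc hs he
  by_cases hi : Function.Injective f
  · refine Con.iso X V H G hc ⟨⟨Equiv.ofBijective f ⟨hi, hs⟩, ?_⟩⟩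
    intro a b
    simp only [Equiv.ofBijective_apply]
    rw [he]
    constructor
    · rintro ⟨p, q, h, e1, e2⟩
      rw [← hi e1, ← hi e2]; exact h
    · exact fun h => ⟨a, b, h, rfl, rfl⟩
  · obtain ⟨u, v, huv, hne⟩ := Function.not_injective_iff.1 hi
    have hna : ¬ H.Adj u v := fun h => G.irrefl ((he _ _).2 ⟨u, v, h, rfl, huv.symm⟩)
    let g : X → {x : X // x ≠ v} := fun x => if h : x = v then ⟨u, hne⟩ else ⟨x, h⟩
    have fg : ∀ x, f (g x).1 = f x := by
      intro x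
      by_cases h : x = v
      · simp only [g, dif_pos h]; rw [h, huv]
      · simp only [g, dif_neg h]
    have gs : ∀ x : {x : X // x ≠ v}, g x.1 = x := fun x => by simp only [g, dif_neg x.2]
    let H' : SimpleGraph {x : X // x ≠ v} :=
      { Adj := fun z w => ∃ p q, H.Adj p q ∧ g p = z ∧ g q = w
        symm := ⟨fun z w ⟨p, q, h, e1, e2⟩ => ⟨q, p, h.symm, e2, e1⟩⟩
        loopless := ⟨fun z ⟨p, q, h, e1, e2⟩ => G.irrefl ((he _ _).2 ⟨p, q, h, rfl, by
          rw [← fg q, ← fg p, e1, e2]⟩)⟩ }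
    have c' : Con k _ H' := by
      refine Con.ident X _ H H' u v g hc hne hna (fun x => ⟨x.1, gs x⟩) ?_ ?_ (fun _ _ => Iff.rfl)
      · simp only [g, dif_neg hne, dif_pos]
      · intro a b e
        by_cases ha : a = v <;> by_cases hb : b = v
        · left; rw [ha, hb]
        · simp only [g, dif_pos ha, dif_neg hb, Subtype.mk.injEq] at e
          exact Or.inr (Or.inr ⟨ha, e.symm⟩)
        · simp only [g, dif_neg ha, dif_pos hb, Subtype.mk.injEq] at e
          exact Or.inr (Or.inl ⟨e, hb⟩)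
        · simp only [g, dif_neg ha, dif_neg hb, Subtype.mk.injEq] at e
          exact Or.inl e
    refine ih _ ?_ _ V H' G (fun x => f x.1) rfl c' ?_ ?_
    · rw [← hn]
      exact Finite.card_subtype_lt (x := v) (fun h => h rfl)
    · intro z
      obtain ⟨x, rfl⟩ := hs z
      exact ⟨g x, fg x⟩
    · intro z w
      rw [he]
      constructor
      · rintro ⟨p, q, h, rfl, rfl⟩
        exact ⟨g p, g q, ⟨p, q, h, rfl, rfl⟩, fg p, fg q⟩
      · rintro ⟨_, _, ⟨p, q, h, rfl, rfl⟩, rfl, rfl⟩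
        exact ⟨p, q, h, (fg p).symm, (fg q).symm⟩

theorem con_hom {j : ℕ} {X V : Type} [Finite X] {H : SimpleGraph X} {G : SimpleGraph V}
    (hc : Con (j + 1) X H) (hH : Cr H j) (hG : Cr G j) (f : X → V)
    (hf : ∀ p q, H.Adj p q → G.Adj (f p) (f q)) : Con (j + 1) V G := by
  obtain ⟨h1, h2⟩ := hom_onto hH.1 hG f hf
  exact con_quot _ _ X V H G f rfl hc h1 h2

theorem join_con {j : ℕ} (hj : 2 ≤ j) {V1 V2 : Type} {H1 : SimpleGraph V1} {a b : V1}
    {H2 : SimpleGraph V2} {w t : V2} (c1 : Con (j + 1) V1 H1) (c2 : Con (j + 1) V2 H2)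
    (h1 : Cr H1 j) (h2 : Cr H2 j) (hab : H1.Adj a b) (hwt : H2.Adj w t) :
    Con (j + 1) _ (ore H1 a b H2 w {t}) ∧ Cr (ore H1 a b H2 w {t}) j := by
  classical
  constructor
  · let g : V2 → V1 ⊕ {q : V2 // q ≠ w} := fun q => if h : q = w then .inl a else .inr ⟨q, h⟩
    have gw : g w = .inl a := by simp only [g, dif_pos]
    have gq : ∀ q (h : q ≠ w), g q = .inr ⟨q, h⟩ := fun q h => by simp only [g, dif_neg h]
    have gl : ∀ q p, g q = .inl p → q = w ∧ p = a := by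
      intro q p e
      by_cases h : q = w
      · rw [h, gw] at e; exact ⟨h, (Sum.inl_injective e).symm⟩
      · rw [gq q h] at e; cases e
    have gr : ∀ q p, g q = .inr p → q = p.1 := by
      intro q p e
      by_cases h : q = w
      · rw [h, gw] at e; cases e
      · rw [gq q h] at e; rw [← Sum.inr_injective e]
    refine Con.join V1 V2 _ H1 H2 _ a b w t Sum.inl g c1 c2 (h1.crit (by omega))
      (h2.crit (by omega)) hab hwt Sum.inl_injective ?_ gw.symm ?_ ?_ ?_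
    · intro p q e
      by_cases h : q = w
      · rw [h, gw] at e; rw [(gl _ _ e).1, h]
      · rw [gq q h] at e; exact gr _ _ e
    · intro p q e
      exact (gl _ _ e.symm).symm
    · rintro (p | q)
      · exact Or.inl ⟨p, rfl⟩
      · exact Or.inr ⟨q.1, gq _ q.2⟩
    · have mid : ∀ p q, (ore H1 a b H2 w {t}).Adj (.inl p) (.inr q) →
          (H2.Adj w q.1 ∧ s(w, q.1) ≠ s(w, t) ∧ p = a) ∨ (p = b ∧ q.1 = t) := by
        rintro p q ⟨h, ⟨e, hT⟩ | ⟨e, hT⟩⟩
        · exact Or.inl ⟨h, fun x => hT (Sym2.congr_right.1 x), e⟩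
        · exact Or.inr ⟨e, hT⟩
      intro z z'
      constructor
      · rcases z with p | p <;> rcases z' with q | q <;> intro h
        · exact Or.inl ⟨p, q, h.1, h.2, rfl, rfl⟩
        · rcases mid p q h with ⟨k1, k2, rfl⟩ | ⟨rfl, k⟩
          · exact Or.inr (Or.inl ⟨w, q.1, k1, k2, gw, gq _ q.2⟩)
          · exact Or.inr (Or.inr (Or.inl ⟨rfl, by rw [← k, gq _ q.2]⟩))
        · rcases mid q p h with ⟨k1, k2, rfl⟩ | ⟨rfl, k⟩
          · exact Or.inr (Or.inl ⟨p.1, w, k1.symm, by rw [Sym2.eq_swap]; exact k2, gq _ p.2, gw⟩)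
          · exact Or.inr (Or.inr (Or.inr ⟨by rw [← k, gq _ p.2], rfl⟩))
        · refine Or.inr (Or.inl ⟨p.1, q.1, h, fun e => ?_, gq _ p.2, gq _ q.2⟩)
          rcases Sym2.eq_iff.1 e with ⟨e1, -⟩ | ⟨-, e1⟩
          · exact p.2 e1
          · exact q.2 e1
      · have e3 : (ore H1 a b H2 w {t}).Adj (.inl b) (g t) := by
          rw [gq t hwt.ne']
          exact ⟨hwt, Or.inr ⟨rfl, rfl⟩⟩
        rintro (⟨p, q, h, hne, rfl, rfl⟩ | ⟨p, q, h, hne, rfl, rfl⟩ | ⟨rfl, rfl⟩ | ⟨rfl, rfl⟩)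
        · exact ⟨h, hne⟩
        · by_cases hp : p = w
          · subst hp
            rw [gw, gq q h.ne']
            exact ⟨h, Or.inl ⟨rfl, fun e => hne (by rw [show q = t from e])⟩⟩
          · by_cases hq : q = w
            · subst hq
              rw [gw, gq p hp]
              exact ⟨h.symm, Or.inl ⟨rfl, fun e => hne (by
                rw [show p = t from e]; exact Sym2.eq_swap)⟩⟩
            · rw [gq p hp, gq q hq]; exact h
        · exact e3
        · exact e3.symm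
  · refine ore_cr hj h1 h2 hab ?_
    obtain ⟨c, hc⟩ := h2.2.1 w t hwt
    haveI : Nontrivial (Fin j) := Fin.nontrivial_iff_two_le.2 hj
    obtain ⟨β, hβ⟩ := exists_ne (c t)
    refine ⟨c, β, fun p q hp hq h => hc p q h fun e => ?_,
      fun q h hT => hc w q h fun e => hT (Sym2.congr_right.1 e), ?_⟩
    · rcases Sym2.eq_iff.1 e with ⟨e1, -⟩ | ⟨-, e1⟩
      · exact hp e1
      · exact hq e1
    · rintro q - rfl
      exact hβ

def bad {X Y : Type} (J : SimpleGraph X) (O : SimpleGraph Y) (ψ : X → Y) : Set (X × X) :=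
  {x | J.Adj x.1 x.2 ∧ ¬ O.Adj (ψ x.1) (ψ x.2)}

theorem lemA {j : ℕ} (hj : 2 ≤ j) {Y V1 : Type} [Finite V1] {O : SimpleGraph Y} (hO : Cr O j)
    {H1 : SimpleGraph V1} {a b : V1} (c1 : Con (j + 1) V1 H1) (h1 : Cr H1 j) (hab : H1.Adj a b)
    (θ : V1 → Y) (hθ : ∀ p q, H1.Adj p q → s(p, q) ≠ s(a, b) → O.Adj (θ p) (θ q)) :
    ∀ (m : ℕ) (X : Type) [Finite X] (J : SimpleGraph X) (ψ : X → Y), (bad J O ψ).ncard = m →
      Con (j + 1) X J → Cr J j →
      (∀ p q, J.Adj p q → O.Adj (ψ p) (ψ q) ∨ (ψ p = θ a ∧ O.Adj (θ b) (ψ q)) ∨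
        (ψ q = θ a ∧ O.Adj (θ b) (ψ p))) → Con (j + 1) Y O := by
  intro m
  induction m using Nat.strong_induction_on with
  | _ m ih =>
  intro X _ J ψ hm cJ hJ hb
  by_cases hall : ∀ p q, J.Adj p q → O.Adj (ψ p) (ψ q)
  · exact con_hom cJ hJ hO ψ hall
  have : ∃ w t, J.Adj w t ∧ ¬ O.Adj (ψ w) (ψ t) ∧ ψ w = θ a ∧ O.Adj (θ b) (ψ t) := by
    push Not at hall
    obtain ⟨p, q, h, hn⟩ := hall
    rcases hb p q h with k | k | k
    · exact absurd k hn
    · exact ⟨p, q, h, hn, k⟩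
    · exact ⟨q, p, h.symm, fun x => hn x.symm, k⟩
  obtain ⟨w, t, hwt, hn, e, hbt⟩ := this
  obtain ⟨c', h'⟩ := join_con hj c1 cJ h1 hJ hab hwt
  let ρ : V1 ⊕ {q : X // q ≠ w} → X := Sum.elim (fun _ => w) (fun q => q.1)
  let ψ' : V1 ⊕ {q : X // q ≠ w} → Y := Sum.elim θ (fun q => ψ q.1)
  have key : ∀ x y, (ore H1 a b J w {t}).Adj x y → O.Adj (ψ' x) (ψ' y) ∨
      (J.Adj (ρ x) (ρ y) ∧ ψ' x = ψ (ρ x) ∧ ψ' y = ψ (ρ y) ∧ (ρ x, ρ y) ≠ (w, t) ∧
        (∀ p, x = .inl p → p = a) ∧ (∀ p, y = .inl p → p = a)) := by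
    rintro (p | p) (q | q) h
    · exact Or.inl (hθ p q h.1 h.2)
    · rcases h.2 with ⟨rfl, hT⟩ | ⟨rfl, hT⟩
      · exact Or.inr ⟨h.1, e.symm, rfl, fun x => hT (Prod.ext_iff.1 x).2,
          fun _ x => (Sum.inl_injective x).symm, fun _ x => (by cases x)⟩
      · left
        have : q.1 = t := hT
        show O.Adj (θ p) (ψ q.1)
        rw [this]; exact hbt
    · rcases h.2 with ⟨rfl, hT⟩ | ⟨rfl, hT⟩
      · exact Or.inr ⟨h.1.symm, rfl, e.symm, fun x => p.2 (Prod.ext_iff.1 x).1,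
          fun _ x => (by cases x), fun _ x => (Sum.inl_injective x).symm⟩
      · left
        have : p.1 = t := hT
        show O.Adj (ψ p.1) (θ q)
        rw [this]; exact hbt.symm
    · exact Or.inr ⟨h, rfl, rfl, fun x => p.2 (Prod.ext_iff.1 x).1, fun _ x => (by cases x),
        fun _ x => (by cases x)⟩
  have inj : ∀ x y : V1 ⊕ {q : X // q ≠ w}, (∀ p, x = .inl p → p = a) →
      (∀ p, y = .inl p → p = a) → ρ x = ρ y → x = y := by
    rintro (p | p) (q | q) k1 k2 e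
    · rw [k1 p rfl, k2 q rfl]
    · exact absurd e.symm q.2
    · exact absurd e p.2
    · exact congrArg _ (Subtype.ext e)
  refine ih _ ?_ _ (ore H1 a b J w {t}) ψ' rfl c' h' ?_
  · rw [← hm]
    refine lt_of_le_of_lt (Set.ncard_le_ncard_of_injOn (t := bad J O ψ \ {(w, t)})
      (fun x => (ρ x.1, ρ x.2)) ?_ ?_ (Set.toFinite _))
      (Set.ncard_sdiff_singleton_lt_of_mem ⟨hwt, hn⟩ (Set.toFinite _))
    · rintro ⟨x, y⟩ ⟨h, hb⟩
      rcases key x y h with k | ⟨k1, k2, k3, k4, -⟩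
      · exact absurd k hb
      · refine ⟨⟨k1, ?_⟩, k4⟩
        show ¬ O.Adj (ψ (ρ x)) (ψ (ρ y))
        rw [← k2, ← k3]; exact hb
    · rintro ⟨x, y⟩ ⟨h, hb⟩ ⟨x', y'⟩ ⟨h', hb'⟩ e
      obtain ⟨-, -, -, -, k1, k2⟩ := (key x y h).resolve_left hb
      obtain ⟨-, -, -, -, k1', k2'⟩ := (key x' y' h').resolve_left hb'
      exact Prod.ext (inj _ _ k1 k1' (Prod.ext_iff.1 e).1) (inj _ _ k2 k2' (Prod.ext_iff.1 e).2)
  · intro x y h
    rcases key x y h with k | ⟨k1, k2, k3, -⟩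
    · exact Or.inl k
    · rw [k2, k3]; exact hb _ _ k1

theorem ore_con {j : ℕ} (hj : 2 ≤ j) {V1 V2 : Type} [Finite V1] [Finite V2] {H1 : SimpleGraph V1}
    {a b : V1} {H2 : SimpleGraph V2} {w : V2} {T : Set V2} (c1 : Con (j + 1) V1 H1)
    (c2 : Con (j + 1) V2 H2) (h1 : Cr H1 j) (h2 : Cr H2 j) (hab : H1.Adj a b)
    (hO : Cr (ore H1 a b H2 w T) j) : Con (j + 1) _ (ore H1 a b H2 w T) := by
  classical
  refine lemA hj hO c1 h1 hab Sum.inl (fun p q h hne => ⟨h, hne⟩) _ V2 H2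
    (fun q => if h : q = w then .inl a else .inr ⟨q, h⟩) rfl c2 h2 ?_
  intro p q h
  by_cases hp : p = w
  · subst hp
    simp only [dif_pos, dif_neg h.ne']
    by_cases hT : q ∈ T
    · exact Or.inr (Or.inl ⟨trivial, h, Or.inr ⟨rfl, hT⟩⟩)
    · exact Or.inl ⟨h, Or.inl ⟨rfl, hT⟩⟩
  · by_cases hq : q = w
    · subst hq
      simp only [dif_pos, dif_neg hp]
      by_cases hT : p ∈ T
      · exact Or.inr (Or.inr ⟨trivial, h.symm, Or.inr ⟨rfl, hT⟩⟩)
      · exact Or.inl ⟨h.symm, Or.inl ⟨rfl, hT⟩⟩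
    · simp only [dif_neg hp, dif_neg hq]
      exact Or.inl h

theorem lemB {j : ℕ} (hj : 2 ≤ j) {V : Type} [Finite V] {G : SimpleGraph V} (hG : Cr G j)
    (IH : ∀ (Y : Type) [Finite Y] (H : SimpleGraph Y), Nat.card Y < Nat.card V → Cr H j →
      Con (j + 1) Y H) :
    ∀ (m : ℕ) (X : Type) [Finite X] (J : SimpleGraph X) (φ : X → V), (bad J G φ).ncard = m →
      Con (j + 1) X J → Cr J j →
      (∀ p q, J.Adj p q → G.Adj (φ p) (φ q) ∨
        (φ p ≠ φ q ∧ ∃ z, G.Adj z (φ p) ∧ G.Adj z (φ q))) → Con (j + 1) V G := by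
  classical
  intro m
  induction m using Nat.strong_induction_on with
  | _ m ih =>
  intro X _ J φ hm cJ hJ hb
  by_cases hall : ∀ p q, J.Adj p q → G.Adj (φ p) (φ q)
  · exact con_hom cJ hJ hG φ hall
  push Not at hall
  obtain ⟨a, b, hab, hn⟩ := hall
  obtain ⟨hne, z, zu, zv⟩ := (hb a b hab).resolve_left hn
  set u := φ a with hu
  set v := φ b with hv
  let G' : SimpleGraph {x : V // x ≠ v} :=
    { Adj := fun p q => G.Adj p.1 q.1 ∨ (p.1 = u ∧ G.Adj v q.1) ∨ (q.1 = u ∧ G.Adj v p.1)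
      symm := ⟨fun p q h => by
        rcases h with h | h | h
        · exact Or.inl h.symm
        · exact Or.inr (Or.inr h)
        · exact Or.inr (Or.inl h)⟩
      loopless := ⟨fun p h => by
        rcases h with h | ⟨e, h⟩ | ⟨e, h⟩
        · exact G.irrefl h
        · exact hn (e ▸ h.symm)
        · exact hn (e ▸ h.symm)⟩ }
  have nc : ¬ Col G' j := by
    rintro ⟨c, hc⟩
    apply hG.1
    refine ⟨fun x => if h : x = v then c ⟨u, hne⟩ else c ⟨x, h⟩, fun p q h => ?_⟩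
    by_cases hp : p = v
    · have hq : q ≠ v := fun e => h.ne (hp.trans e.symm)
      simp only [dif_pos hp, dif_neg hq]
      exact hc _ _ (Or.inr (Or.inl ⟨rfl, hp ▸ h⟩))
    · by_cases hq : q = v
      · simp only [dif_pos hq, dif_neg hp]
        exact hc _ _ (Or.inr (Or.inr ⟨rfl, hq ▸ h.symm⟩))
      · simp only [dif_neg hq, dif_neg hp]
        exact hc _ _ (Or.inl h)
  obtain ⟨S, H2, h2, hs⟩ := crit_sub G' (by omega) nc
  have c2 : Con (j + 1) S H2 := by
    refine IH S H2 (lt_of_le_of_lt (Finite.card_subtype_le _) ?_) h2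
    exact Finite.card_subtype_lt (x := v) (fun h => h rfl)
  obtain ⟨c, hc⟩ := hG.2.1 z v zv
  have hc' : ∀ p q, p ≠ v → q ≠ v → G.Adj p q → c p ≠ c q := by
    intro p q hp hq h
    refine hc p q h fun e => ?_
    rcases Sym2.eq_iff.1 e with ⟨-, e1⟩ | ⟨e1, -⟩
    · exact hq e1
    · exact hp e1
  have inner : ∀ p q : S, p.1.1 ≠ u → q.1.1 ≠ u → H2.Adj p q → G.Adj p.1.1 q.1.1 := by
    intro p q hp hq h
    rcases hs p q h with k | k | k
    · exact k
    · exact absurd k.1 hp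
    · exact absurd k.1 hq
  have hw : (⟨u, hne⟩ : {x : V // x ≠ v}) ∈ S := by
    by_contra hw
    have : ∀ p : S, p.1.1 ≠ u := fun p e => hw (by
      have : p.1 = ⟨u, hne⟩ := Subtype.ext e
      rw [← this]; exact p.2)
    exact h2.1 ⟨fun p => c p.1.1, fun p q h => hc' _ _ p.1.2 q.1.2 (inner p q (this p) (this q) h)⟩
  let w : S := ⟨⟨u, hne⟩, hw⟩
  have nw : ∀ p : S, p ≠ w → p.1.1 ≠ u := fun p hp e => hp (Subtype.ext (Subtype.ext e))
  let T : Set S := {q | ¬ G.Adj u q.1.1}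
  have inT : ∀ q, H2.Adj w q → q ∈ T → G.Adj v q.1.1 := by
    intro q h hT
    rcases hs w q h with k | k | k
    · exact absurd k hT
    · exact k.2
    · exact absurd k.1 (nw q h.ne')
  have hO : Cr (ore J a b H2 w T) j := by
    refine ore_cr hj hJ h2 hab ⟨fun p => c p.1.1, c v, fun p q hp hq h =>
      hc' _ _ p.1.2 q.1.2 (inner p q (nw p hp) (nw q hq) h), fun q _ hT =>
      hc' _ _ hne q.1.2 (not_not.1 hT), fun q h hT => hc _ _ (inT q h hT) fun e => ?_⟩
    rcases Sym2.eq_iff.1 e with ⟨e1, -⟩ | ⟨-, e1⟩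
    · exact zv.ne e1.symm
    · exact hT (e1 ▸ zu.symm)
  have cO := ore_con hj cJ c2 hJ h2 hab hO
  let φ' : X ⊕ {q : S // q ≠ w} → V := Sum.elim φ (fun q => q.1.1.1)
  have key : ∀ x y, (ore J a b H2 w T).Adj x y → G.Adj (φ' x) (φ' y) ∨
      ∃ p q, x = .inl p ∧ y = .inl q ∧ J.Adj p q ∧ (p, q) ≠ (a, b) := by
    have mid : ∀ p q, (ore J a b H2 w T).Adj (.inl p) (.inr q) → G.Adj (φ p) q.1.1.1 := by
      rintro p q ⟨h, ⟨rfl, hT⟩ | ⟨rfl, hT⟩⟩
      · exact not_not.1 hT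
      · exact inT _ h hT
    rintro (p | p) (q | q) h
    · refine Or.inr ⟨p, q, rfl, rfl, h.1, fun e => h.2 ?_⟩
      rw [show p = a from (Prod.ext_iff.1 e).1, show q = b from (Prod.ext_iff.1 e).2]
    · exact Or.inl (mid p q h)
    · exact Or.inl (mid q p h).symm
    · exact Or.inl (inner _ _ (nw _ p.2) (nw _ q.2) h)
  let ρ : X ⊕ {q : S // q ≠ w} → X := Sum.elim id (fun _ => a)
  refine ih _ ?_ _ (ore J a b H2 w T) φ' rfl cO hO ?_
  · rw [← hm]
    refine lt_of_le_of_lt (Set.ncard_le_ncard_of_injOn (t := bad J G φ \ {(a, b)})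
      (fun x => (ρ x.1, ρ x.2)) ?_ ?_ (Set.toFinite _))
      (Set.ncard_sdiff_singleton_lt_of_mem ⟨hab, hn⟩ (Set.toFinite _))
    · rintro ⟨x, y⟩ ⟨h, hb⟩
      obtain ⟨p, q, rfl, rfl, k1, k2⟩ := (key x y h).resolve_left hb
      exact ⟨⟨k1, hb⟩, k2⟩
    · rintro ⟨x, y⟩ ⟨h, hb⟩ ⟨x', y'⟩ ⟨h', hb'⟩ e
      obtain ⟨p, q, rfl, rfl, -⟩ := (key x y h).resolve_left hb
      obtain ⟨p', q', rfl, rfl, -⟩ := (key x' y' h').resolve_left hb'
      have e1 : p = p' := (Prod.ext_iff.1 e).1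
      have e2 : q = q' := (Prod.ext_iff.1 e).2
      rw [e1, e2]
  · intro x y h
    rcases key x y h with k | ⟨p, q, rfl, rfl, k, -⟩
    · exact Or.inl k
    · exact hb p q k

theorem main3 {j : ℕ} (hj : 2 ≤ j) : ∀ (n : ℕ) (V : Type) [Finite V] (G : SimpleGraph V),
    Nat.card V = n → Cr G j → Con (j + 1) V G := by
  intro n
  induction n using Nat.strong_induction_on with
  | _ n ih =>
  intro V _ G hn hG
  have hne : Nonempty V := by
    by_contra hn
    exact hG.1 ⟨fun v => (hn ⟨v⟩).elim, fun v => (hn ⟨v⟩).elim⟩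
  obtain ⟨z⟩ := hne
  obtain ⟨ν, hi, hν⟩ := hG.nbrs z
  refine lemB hj hG (fun Y _ H h hH => ih _ (hn ▸ h) Y H rfl hH) _ (Fin (j + 1)) ⊤
    (Fin.cons (α := fun _ => V) z ν) rfl Con.base (top_cr (by omega)) ?_
  intro p q h
  rcases Fin.eq_zero_or_eq_succ p with rfl | ⟨p, rfl⟩ <;>
    rcases Fin.eq_zero_or_eq_succ q with rfl | ⟨q, rfl⟩
  · exact absurd rfl h
  · exact Or.inl (hν q)
  · exact Or.inl (hν p).symm
  · exact Or.inr ⟨fun e => h (congrArg _ (hi e)), z, hν p, hν q⟩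

theorem main (k : ℕ) (V : Type) [Finite V] (G : SimpleGraph V) (h : Crit k G) : Con k V G := by
  classical
  rcases k with _ | _ | _ | k
  · have he : IsEmpty V := (chromaticNumber_eq_zero_iff (G := G)).1 (h.1.trans (by simp))
    exact Con.iso _ _ ⊤ G Con.base ⟨⟨Equiv.equivOfIsEmpty _ _, fun {a} => a.elim0⟩⟩
  · have hne : Nonempty V := by
      by_contra hn
      have : Col G 0 := ⟨fun v => (hn ⟨v⟩).elim, fun v => (hn ⟨v⟩).elim⟩
      rw [← lt_succ_iff, h.1] at this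
      exact lt_irrefl _ this
    obtain ⟨z⟩ := hne
    have hs : ∀ v w : V, v = w := by
      intro v w
      by_contra hne
      obtain ⟨c, -⟩ := h.del w
      exact (c ⟨v, hne⟩).elim0
    refine Con.iso _ _ ⊤ G Con.base ⟨⟨⟨fun _ => z, fun _ => 0, fun _ => Subsingleton.elim (α := Fin 1) _ _,
      fun _ => hs _ _⟩, fun {a b} => ?_⟩⟩
    have : a = b := Subsingleton.elim (α := Fin 1) _ _
    simp [this]
  · have hG := h.cr le_rfl
    have hne : Nonempty V := by
      by_contra hn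
      exact hG.1 ⟨fun v => (hn ⟨v⟩).elim, fun v => (hn ⟨v⟩).elim⟩
    obtain ⟨z⟩ := hne
    obtain ⟨w, hw⟩ := hG.2.2 z
    refine con_hom (j := 1) Con.base (top_cr le_rfl) hG ![z, w] ?_
    intro p q h
    fin_cases p <;> fin_cases q
    · exact absurd rfl h
    · exact hw
    · exact hw.symm
    · exact absurd rfl h
  · exact main3 (j := k + 2) (by omega) _ V G rfl (h.cr (by omega))

end Pool.Agent.H.MP_c17804_co
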